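import Pool.Agent.Y120.A.Pts
import Pool.Agent.Y120.K.WinI

/-!
# The numbers at points with algebraic invariants as rational functions of the values
-/

set_option autoImplicit false

open Pool.Agent.Y120.J Pool.Agent.Y120.K
open Pool.Agent.TH21.MS (jj)

namespace Pool.Agent.Y120.A

/-- the index type of the variables -/
abbrev Vv (q k : ℕ) : Type := Option (Fin q) ⊕ Fin k × Option (Fin 4)

/-- the period functions from the values -/
noncomputable def Zw (v : Option (Fin 4) → ℂ) : Fin 3 → ℂ :=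
  ![tpi * v (some 0) ^ 2, v (some 0) * (v (some 1) - v none * v (some 0)), tpi * (v (some 0) * v (some 2))]

section
variable {q k : ℕ} (K : IntermediateField ℚ ℂ)

/-- the same as polynomials -/
noncomputable def Zq (i : Fin k) : Fin 3 → MvPolynomial (Vv q k) K :=
  ![MvPolynomial.X (Sum.inl none) * MvPolynomial.X (Sum.inr (i, some 0)) ^ 2,
    MvPolynomial.X (Sum.inr (i, some 0)) * (MvPolynomial.X (Sum.inr (i, some 1)) -
      MvPolynomial.X (Sum.inr (i, none)) * MvPolynomial.X (Sum.inr (i, some 0))),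
    MvPolynomial.X (Sum.inl none) * (MvPolynomial.X (Sum.inr (i, some 0)) * MvPolynomial.X (Sum.inr (i, some 2)))]

/-- linear combinations -/
noncomputable def Lq (a b : ℤ) (i : Fin k) : MvPolynomial (Vv q k) K :=
  MvPolynomial.C (a : K) * Zq K i 1 + MvPolynomial.C (b : K) * Zq K i 0

/-- the numerators -/
noncomputable def Nq (t : K) (a b c d : ℤ) (i : Fin k) : Fin 3 → MvPolynomial (Vv q k) K :=
  ![Lq K a b i, MvPolynomial.C (-t) * Lq K c d i ^ 2,
    MvPolynomial.C t * Lq K c d i ^ 3 * (Lq K c d i * (Zq K i 0 - MvPolynomial.C 2 * Zq K i 2) -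
      MvPolynomial.C (2 * (c : K)) * Zq K i 0)]

/-- the denominators -/
noncomputable def Mq (c d : ℤ) (i : Fin k) : Fin 3 → MvPolynomial (Vv q k) K :=
  ![Lq K c d i, Zq K i 0, Zq K i 0 ^ 3]

variable {K}

lemma dpow {σ R : Type} [CommRing R] {p : MvPolynomial σ R} {a : ℕ} (hp : p.totalDegree ≤ a) (n : ℕ) :
    (p ^ n).totalDegree ≤ n * a := (MvPolynomial.totalDegree_pow _ _).trans (Nat.mul_le_mul_left _ hp)

lemma dC {σ R : Type} [CommRing R] (c : R) : (MvPolynomial.C c : MvPolynomial σ R).totalDegree ≤ 0 := by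
  rw [MvPolynomial.totalDegree_C]

lemma Zq_deg (i : Fin k) (j : Fin 3) : (Zq (q := q) K i j).totalDegree ≤ 3 := by
  fin_cases j
  · exact dmul (a := 1) (b := 2) (dX _) (dpow (dX _) 2)
  · exact dmul (a := 1) (b := 2) (dX _) (dsub ((dX _).trans (by norm_num)) (dmul (a := 1) (b := 1) (dX _) (dX _)))
  · exact dmul (a := 1) (b := 2) (dX _) (dmul (a := 1) (b := 1) (dX _) (dX _))

lemma Lq_deg (a b : ℤ) (i : Fin k) : (Lq (q := q) K a b i).totalDegree ≤ 3 :=
  dadd (dmul (a := 0) (b := 3) (dC _) (Zq_deg i 1)) (dmul (a := 0) (b := 3) (dC _) (Zq_deg i 0))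

lemma Nq_deg (t : K) (a b c d : ℤ) (i : Fin k) (j : Fin 3) : (Nq (q := q) K t a b c d i j).totalDegree ≤ 15 := by
  have h1 := Lq_deg (q := q) (K := K) c d i
  fin_cases j
  · exact (Lq_deg (q := q) (K := K) a b i).trans (by norm_num)
  · exact (dmul (a := 0) (b := 6) (dC _) (dpow h1 2)).trans (by norm_num)
  · refine dmul (a := 9) (b := 6) (dmul (a := 0) (b := 9) (dC _) (dpow h1 3)) (dsub ?_ ?_)
    · exact dmul (a := 3) (b := 3) h1 (dsub (Zq_deg i 0) (dmul (a := 0) (b := 3) (dC _) (Zq_deg i 2)))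
    · exact (dmul (a := 0) (b := 3) (dC _) (Zq_deg i 0)).trans (by norm_num)

lemma Mq_deg (c d : ℤ) (i : Fin k) (j : Fin 3) : (Mq (q := q) K c d i j).totalDegree ≤ 15 := by
  fin_cases j
  · exact (Lq_deg (q := q) (K := K) c d i).trans (by norm_num)
  · exact (Zq_deg i 0).trans (by norm_num)
  · exact (dpow (Zq_deg i 0) 3).trans (by norm_num)

lemma Zq_eval (w : Fin q → ℂ) (y : Fin k × Option (Fin 4) → ℂ) (i : Fin k) (j : Fin 3) :
    MvPolynomial.aeval (Sum.elim (wo w) y) (Zq K i j) = Zw (fun o => y (i, o)) j := by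
  fin_cases j
  · show MvPolynomial.aeval (Sum.elim (wo w) y) (MvPolynomial.X (Sum.inl none) * MvPolynomial.X (Sum.inr (i, some 0)) ^ 2 :
      MvPolynomial (Vv q k) K) = tpi * y (i, some 0) ^ 2
    rw [map_mul, map_pow, MvPolynomial.aeval_X, MvPolynomial.aeval_X]
    rfl
  · show MvPolynomial.aeval (Sum.elim (wo w) y) (MvPolynomial.X (Sum.inr (i, some 0)) * (MvPolynomial.X (Sum.inr (i, some 1)) -
      MvPolynomial.X (Sum.inr (i, none)) * MvPolynomial.X (Sum.inr (i, some 0))) : MvPolynomial (Vv q k) K) =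
      y (i, some 0) * (y (i, some 1) - y (i, none) * y (i, some 0))
    rw [map_mul, map_sub, map_mul, MvPolynomial.aeval_X, MvPolynomial.aeval_X, MvPolynomial.aeval_X]
    rfl
  · show MvPolynomial.aeval (Sum.elim (wo w) y) (MvPolynomial.X (Sum.inl none) * (MvPolynomial.X (Sum.inr (i, some 0)) *
      MvPolynomial.X (Sum.inr (i, some 2))) : MvPolynomial (Vv q k) K) = tpi * (y (i, some 0) * y (i, some 2))
    rw [map_mul, map_mul, MvPolynomial.aeval_X, MvPolynomial.aeval_X, MvPolynomial.aeval_X]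
    rfl

lemma Lq_eval (w : Fin q → ℂ) (y : Fin k × Option (Fin 4) → ℂ) (a b : ℤ) (i : Fin k) :
    MvPolynomial.aeval (Sum.elim (wo w) y) (Lq K a b i) = a * Zw (fun o => y (i, o)) 1 + b * Zw (fun o => y (i, o)) 0 := by
  unfold Lq
  rw [map_add, map_mul, map_mul, MvPolynomial.aeval_C, MvPolynomial.aeval_C, Zq_eval, Zq_eval, map_intCast, map_intCast]

lemma Nq_eval (w : Fin q → ℂ) (y : Fin k × Option (Fin 4) → ℂ) (t : K) (a b c d : ℤ) (i : Fin k) (j : Fin 3) :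
    MvPolynomial.aeval (Sum.elim (wo w) y) (Nq K t a b c d i j) = nv t a b c d (Zw fun o => y (i, o)) j := by
  have h1 := Lq_eval (K := K) w y c d i
  fin_cases j
  · exact Lq_eval w y a b i
  · show MvPolynomial.aeval (Sum.elim (wo w) y) (MvPolynomial.C (-t) * Lq K c d i ^ 2) = -(t : ℂ) * _ ^ 2
    rw [map_mul, map_pow, h1, MvPolynomial.aeval_C, map_neg]
    rfl
  · show MvPolynomial.aeval (Sum.elim (wo w) y) (MvPolynomial.C t * Lq K c d i ^ 3 * (Lq K c d i * (Zq K i 0 -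
      MvPolynomial.C 2 * Zq K i 2) - MvPolynomial.C (2 * (c : K)) * Zq K i 0)) = (t : ℂ) * _ ^ 3 * _
    rw [map_mul, map_mul, map_pow, map_sub, map_mul, map_sub, map_mul, map_mul, h1, MvPolynomial.aeval_C,
      MvPolynomial.aeval_C, MvPolynomial.aeval_C, Zq_eval, Zq_eval, map_mul, map_intCast, map_ofNat]
    rfl

lemma Mq_eval (w : Fin q → ℂ) (y : Fin k × Option (Fin 4) → ℂ) (c d : ℤ) (i : Fin k) (j : Fin 3) :
    MvPolynomial.aeval (Sum.elim (wo w) y) (Mq K c d i j) = mv c d (Zw fun o => y (i, o)) j := by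
  fin_cases j
  · exact Lq_eval w y c d i
  · exact Zq_eval w y i 0
  · show MvPolynomial.aeval (Sum.elim (wo w) y) (Zq K i 0 ^ 3) = _ ^ 3
    rw [map_pow, Zq_eval]

/-- the transformed relation -/
noncomputable def Pt (δ : ℕ) (α : Fin k → K) (γ : Fin k → Matrix.SpecialLinearGroup (Fin 2) ℤ)
    (P : MvPolynomial (Option (Fin q) ⊕ Fin k × Fin 3) K) : MvPolynomial (Vv q k) K :=
  clr δ (fun o => MvPolynomial.X (Sum.inl o))
    (fun v : Fin k × Fin 3 => Nq K (α v.1) (γ v.1 0 0) (γ v.1 0 1) (γ v.1 1 0) (γ v.1 1 1) v.1 v.2)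
    (fun v : Fin k × Fin 3 => Mq K (γ v.1 1 0) (γ v.1 1 1) v.1 v.2) P

lemma Pt_deg {δ : ℕ} {α : Fin k → K} {γ : Fin k → Matrix.SpecialLinearGroup (Fin 2) ℤ}
    {P : MvPolynomial (Option (Fin q) ⊕ Fin k × Fin 3) K} (hP : P.totalDegree ≤ δ) :
    (Pt δ α γ P).totalDegree ≤ Fintype.card (Option (Fin q)) * (δ * 15) + Fintype.card (Fin k × Fin 3) * (δ * 15) :=
  clr_deg hP (fun _ => (dX _).trans (by norm_num)) (fun _ => Nq_deg _ _ _ _ _ _ _) fun _ => Mq_deg _ _ _ _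

lemma Pt_eval {δ : ℕ} {α : Fin k → K} {γ : Fin k → Matrix.SpecialLinearGroup (Fin 2) ℤ}
    {P : MvPolynomial (Option (Fin q) ⊕ Fin k × Fin 3) K} (hP : P.totalDegree ≤ δ) (w : Fin q → ℂ)
    (y : Fin k × Option (Fin 4) → ℂ) (u : Fin k × Fin 3 → ℂ)
    (hM : ∀ v : Fin k × Fin 3, mv (γ v.1 1 0) (γ v.1 1 1) (Zw fun o => y (v.1, o)) v.2 ≠ 0)
    (hu : ∀ v : Fin k × Fin 3, u v = nv (α v.1) (γ v.1 0 0) (γ v.1 0 1) (γ v.1 1 0) (γ v.1 1 1) (Zw fun o => y (v.1, o)) v.2 /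
      mv (γ v.1 1 0) (γ v.1 1 1) (Zw fun o => y (v.1, o)) v.2) :
    MvPolynomial.aeval (Sum.elim (wo w) y) (Pt δ α γ P) = 0 ↔ MvPolynomial.aeval (Sum.elim (wo w) u) P = 0 := by
  unfold Pt
  rw [clr_eval hP _ fun b => by
    rw [Mq_eval]
    exact hM b]
  have h1 : (Sum.elim (fun a => MvPolynomial.aeval (Sum.elim (wo w) y) (MvPolynomial.X (Sum.inl a) : MvPolynomial (Vv q k) K))
      fun v : Fin k × Fin 3 => MvPolynomial.aeval (Sum.elim (wo w) y)
        (Nq K (α v.1) (γ v.1 0 0) (γ v.1 0 1) (γ v.1 1 0) (γ v.1 1 1) v.1 v.2) /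
        MvPolynomial.aeval (Sum.elim (wo w) y) (Mq K (γ v.1 1 0) (γ v.1 1 1) v.1 v.2)) = Sum.elim (wo w) u := by
    funext o
    rcases o with o | v
    · rw [Sum.elim_inl, Sum.elim_inl, MvPolynomial.aeval_X, Sum.elim_inl]
    · rw [Sum.elim_inr, Sum.elim_inr, Nq_eval, Mq_eval, hu]
  rw [h1, mul_eq_zero]
  refine ⟨fun h => h.resolve_left (Finset.prod_ne_zero_iff.2 fun b _ => pow_ne_zero _ ?_), Or.inr⟩
  rw [Mq_eval]
  exact hM b

/-- all values of the period functions are taken on the quadric -/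
lemma exists_Zw {Z : Fin 3 → ℂ} (hZ : Z 0 ≠ 0) : ∃ v : Option (Fin 4) → ℂ, v (some 0) ≠ 0 ∧
    v (some 0) * v (some 3) - v (some 2) * v (some 1) = 1 ∧ Zw v = Z := by
  obtain ⟨r, hr⟩ := IsAlgClosed.exists_pow_nat_eq (Z 0 / tpi) (show 0 < 2 by norm_num)
  have ht := Pool.Agent.Y120.K.tpi_ne
  have hr0 : r ≠ 0 := by
    intro h
    rw [h] at hr
    have h1 : Z 0 / tpi ≠ 0 := div_ne_zero hZ ht
    exact h1 (by rw [← hr]; ring)
  have hr' : tpi * r ^ 2 = Z 0 := by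
    rw [hr]
    field_simp
  obtain ⟨v1, hv1⟩ : ∃ v1 : ℂ, v1 = Z 1 / r := ⟨_, rfl⟩
  obtain ⟨v2, hv2⟩ : ∃ v2 : ℂ, v2 = Z 2 / (tpi * r) := ⟨_, rfl⟩
  refine ⟨fun o => o.elim 0 ![r, v1, v2, (1 + v2 * v1) / r], hr0, ?_, ?_⟩
  · show r * ((1 + v2 * v1) / r) - v2 * v1 = 1
    field_simp
    ring
  · funext j
    fin_cases j
    · exact hr'
    · show r * (v1 - 0 * r) = Z 1
      rw [hv1]
      field_simp
      ring
    · show tpi * (r * v2) = Z 2
      rw [hv2]
      field_simp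

end

end Pool.Agent.Y120.A
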