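import Pool.Agent.Y120.A.Defs
import Pool.Agent.Y120.J.All

/-!
# The points where `j` is large
-/

set_option autoImplicit false

open Pool.Agent.Y120.J
open Pool.Agent.TH21.MS (jj)

namespace Pool.Agent.Y120.A

theorem t_fdc : T_FDC := by
  intro Y
  obtain ⟨B, hB⟩ := Pool.Agent.Y988.J.bound (max Y 1)
  refine ⟨B + 1, fun z hz => ?_⟩
  obtain ⟨γ, hγ⟩ := ModularGroup.exists_smul_mem_fd z
  obtain ⟨w, hw⟩ : ∃ w : UpperHalfPlane, w = γ • z := ⟨_, rfl⟩
  rw [← hw] at hγ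
  have hjw : jj w = jj z := by rw [hw, Pool.Agent.Y988.J.jj_inv]
  have him : 1 / 2 ≤ w.im := by
    have h1 := ModularGroup.three_le_four_mul_im_sq_of_mem_fd hγ
    have h2 := w.im_pos
    nlinarith
  have hre : |w.re| ≤ 1 / 2 := hγ.2
  have hwY : max Y 1 < w.im := by
    by_contra hcon
    push Not at hcon
    have h1 := hB (w : ℂ) hre him hcon
    rw [hjw] at h1
    linarith
  exact ⟨γ⁻¹, w, (le_max_left _ _).trans hwY.le, by rw [hw, inv_smul_smul], hjw⟩

end Pool.Agent.Y120.A
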