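import Pool.Agent.Y120.J.All
import Pool.Agent.Y916.Af.Gs

/-!
# The hypotheses of the theorems at algebraic points for the family of the modular invariant
-/

set_option autoImplicit false

open PowerSeries Pool.Agent.Y113 Pool.Agent.Y120.GF Pool.Agent.Y120.GH Pool.Agent.Y119.HZ Pool.Agent.Y916.Af

namespace Pool.Agent.Y120.J.A

section
variable {n : ℕ} {H W : Matrix (Fin n) (Fin n) ℚ⟦X⟧} {N : Matrix (Fin n) (Fin n) ℚ} {Nz : Fin n → Fin n → ℤ}
  {T₁ : Polynomial ℤ} {A : Fin n → Fin n → Polynomial ℤ}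

/-- general systems, after helper119 -/
theorem gfs_gen (hN0 : N ^ n = 0) (hNz : ∀ i j, (Nz i j : ℚ) = N i j) (hT : T₁ ≠ 0) (hHW : H * W = 1)
    (h0 : ∀ i j, coeff 0 (H i j) = if i = j then 1 else 0)
    (hode : ∀ i j, ps T₁ * (X * d⁄dX ℚ (H i j) + ∑ k, H i k * C (N k j)) = ∑ k, ps (A i k) * H k j)
    (hH : ∀ i j, SDc (H i j)) (hW : ∀ i j, SDc (W i j)) :
    GFs (Polynomial.X * T₁) (fun a c => A3 T₁ A Nz (ix n a) (ix n c)) (fun a : Fin (n * n) => H (ix n a).1 (ix n a).2) := by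
  obtain ⟨q, C, hG⟩ := gsysL hN0 hHW hode hH hW
  have hG' := hG.reindex (ix n)
  have hT' : Polynomial.X * T₁ ≠ 0 := mul_ne_zero Polynomial.X_ne_zero hT
  refine ⟨hT', fun i => ?_, ?_, ⟨q, C, hG'⟩, qu_gen hN0 hNz h0 hode hH⟩
  · have h1 := ode_A3 hNz hode (ix n i)
    have h2 : ∑ j : Fin (n * n), ps (A3 T₁ A Nz (ix n i) (ix n j)) * H (ix n j).1 (ix n j).2 =
        ∑ q, ps (A3 T₁ A Nz (ix n i) q) * H q.1 q.2 :=
      Equiv.sum_comp (ix n) fun q => ps (A3 T₁ A Nz (ix n i) q) * H q.1 q.2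
    exact h1.trans h2.symm
  · obtain ⟨C₁, hC₁, hs, -⟩ := Pool.Agent.Y119.HY.SDc.unif (y := fun p : Fin n × Fin n => H p.1 p.2) fun p => hH p.1 p.2
    exact ⟨C₁, fun j m => hs _ m⟩

end

theorem gfs_true : ∃ (T : Polynomial ℤ) (A : Fin 4 → Fin 4 → Polynomial ℤ), GFs T A hJ := by
  obtain ⟨h1, h2, h3⟩ := hode
  obtain ⟨hF, hG⟩ := hsd
  have hF1 : SDc F1 := SDc.X.mul hF.deriv
  have hG1 : SDc G1 := (SDc.X.mul hG.deriv).add hF
  set H : Matrix (Fin 2) (Fin 2) ℚ⟦X⟧ := !![FF, GG; F1, G1] with hH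
  set W : Matrix (Fin 2) (Fin 2) ℚ⟦X⟧ := !![G1, -GG; -F1, FF] with hW
  have hT : T1 ≠ 0 := by
    intro h0
    have := congrArg (Polynomial.eval 0) h0
    simp [T1] at this
  have hFF0 : coeff 0 FF = 1 := by
    unfold FF
    rw [coeff_zero_eq_constantCoeff_apply, map_mul, ← coeff_zero_eq_constantCoeff_apply, ← coeff_zero_eq_constantCoeff_apply,
      coeff_mk, coeff_mk]
    simp [fu, fa]
  have hGG0 : coeff 0 GG = 0 := by
    unfold GG
    rw [coeff_zero_eq_constantCoeff_apply, map_mul, ← coeff_zero_eq_constantCoeff_apply, ← coeff_zero_eq_constantCoeff_apply,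
      coeff_mk, coeff_mk]
    simp [fb]
  have hF10 : coeff 0 F1 = 0 := by
    unfold F1
    rw [coeff_zero_eq_constantCoeff_apply, map_mul, constantCoeff_X, zero_mul]
  have hG10 : coeff 0 G1 = 1 := by
    unfold G1
    rw [map_add, hFF0]
    rw [coeff_zero_eq_constantCoeff_apply, map_mul, constantCoeff_X, zero_mul, zero_add]
  have hfam := gfs_gen (n := 2) (H := H) (W := W) (N := !![0, 1; 0, 0]) (Nz := ![![0, 1], ![0, 0]]) (T₁ := T1)
    (A := ![![0, T1], ![Q1, 0]]) ?_ ?_ hT ?_ ?_ ?_ ?_ ?_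
  · have he : (fun a : Fin (2 * 2) => H (ix 2 a).1 (ix 2 a).2) = hJ := by
      funext a
      fin_cases a <;> rfl
    rw [he] at hfam
    exact ⟨_, _, hfam⟩
  · rw [pow_two]
    ext i j
    fin_cases i <;> fin_cases j <;> simp [Matrix.mul_apply, Fin.sum_univ_two]
  · intro i j
    fin_cases i <;> fin_cases j <;> simp
  · rw [hH, hW, Matrix.mul_fin_two]
    refine Matrix.ext fun i j => ?_
    fin_cases i <;> fin_cases j
    · show FF * G1 + GG * -F1 = 1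
      linear_combination h3
    · show FF * -GG + GG * FF = 0
      ring
    · show F1 * G1 + G1 * -F1 = 0
      ring
    · show F1 * -GG + G1 * FF = 1
      linear_combination h3
  · intro i j
    fin_cases i <;> fin_cases j
    · exact hFF0
    · exact hGG0
    · exact hF10
    · exact hG10
  · intro i j
    have h0 : ps (0 : Polynomial ℤ) = 0 := by
      unfold ps
      simp
    fin_cases i <;> fin_cases j
    · show ps T1 * (X * d⁄dX ℚ FF + ∑ k, H 0 k * C ((!![0, 1; 0, 0] : Matrix (Fin 2) (Fin 2) ℚ) k 0)) =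
        ∑ k, ps ((![![0, T1], ![Q1, 0]] : Fin 2 → Fin 2 → Polynomial ℤ) 0 k) * H k 0
      rw [Fin.sum_univ_two, Fin.sum_univ_two]
      show ps T1 * (X * d⁄dX ℚ FF + (FF * C (0 : ℚ) + GG * C (0 : ℚ))) = ps 0 * FF + ps T1 * F1
      rw [h0, map_zero]
      unfold F1
      ring
    · show ps T1 * (X * d⁄dX ℚ GG + ∑ k, H 0 k * C ((!![0, 1; 0, 0] : Matrix (Fin 2) (Fin 2) ℚ) k 1)) =
        ∑ k, ps ((![![0, T1], ![Q1, 0]] : Fin 2 → Fin 2 → Polynomial ℤ) 0 k) * H k 1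
      rw [Fin.sum_univ_two, Fin.sum_univ_two]
      show ps T1 * (X * d⁄dX ℚ GG + (FF * C (1 : ℚ) + GG * C (0 : ℚ))) = ps 0 * GG + ps T1 * G1
      rw [h0, map_zero, map_one]
      unfold G1
      ring
    · show ps T1 * (X * d⁄dX ℚ F1 + ∑ k, H 1 k * C ((!![0, 1; 0, 0] : Matrix (Fin 2) (Fin 2) ℚ) k 0)) =
        ∑ k, ps ((![![0, T1], ![Q1, 0]] : Fin 2 → Fin 2 → Polynomial ℤ) 1 k) * H k 0
      rw [Fin.sum_univ_two, Fin.sum_univ_two]
      show ps T1 * (X * d⁄dX ℚ F1 + (F1 * C (0 : ℚ) + G1 * C (0 : ℚ))) = ps Q1 * FF + ps 0 * F1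
      rw [h0, map_zero, ← h1]
      ring
    · show ps T1 * (X * d⁄dX ℚ G1 + ∑ k, H 1 k * C ((!![0, 1; 0, 0] : Matrix (Fin 2) (Fin 2) ℚ) k 1)) =
        ∑ k, ps ((![![0, T1], ![Q1, 0]] : Fin 2 → Fin 2 → Polynomial ℤ) 1 k) * H k 1
      rw [Fin.sum_univ_two, Fin.sum_univ_two]
      show ps T1 * (X * d⁄dX ℚ G1 + (F1 * C (1 : ℚ) + G1 * C (0 : ℚ))) = ps Q1 * GG + ps 0 * G1
      rw [h0, map_zero, map_one, ← h2]
      ring
  · intro i j
    fin_cases i <;> fin_cases j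
    · exact hF
    · exact hG
    · exact hF1
    · exact hG1
  · intro i j
    fin_cases i <;> fin_cases j
    · exact hG1
    · exact SDc_neg hG
    · exact SDc_neg hF1
    · exact hF

end Pool.Agent.Y120.J.A
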