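import Pool.Agent.Y120.A.Inc
import Pool.Agent.Y120.A.Gf
import Pool.Agent.Y120.A.FD
import Pool.Agent.Y916.Af.Gs3
import Pool.Agent.Y916.Af.Trd

/-!
# Windows of algebraic invariants
-/

set_option autoImplicit false

open PowerSeries Module Pool.Agent.Y120.J Pool.Agent.Y120.K
open Pool.Agent.TH21.MS (jj)
open Pool.Agent.Y916.Af (ptc winT2s nrh_of_gfs trdeg_le_of_closure mem_cl_of_alg)
open Pool.Agent.Y916

namespace Pool.Agent.Y120.A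

lemma ht_alg {m A : ℕ} {ξ : ℂ} (h : Al.Ht m A ξ) : IsAlgebraic ℚ ξ ∧ (minpoly ℚ ξ).natDegree ≤ m := by
  obtain ⟨f, hf, hd, -, h0⟩ := h
  have hg0 : f.map (Int.castRingHom ℚ) ≠ 0 := (Polynomial.map_ne_zero_iff (Int.castRingHom ℚ).injective_int).2 hf
  have hg : Polynomial.aeval ξ (f.map (Int.castRingHom ℚ)) = 0 := by
    rw [Polynomial.aeval_def, Polynomial.eval₂_map]
    have h1 : (algebraMap ℚ ℂ).comp (Int.castRingHom ℚ) = algebraMap ℤ ℂ := RingHom.ext_int _ _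
    rw [h1]
    exact h0
  refine ⟨⟨_, hg0, hg⟩, ?_⟩
  refine (Polynomial.natDegree_le_of_dvd (minpoly.dvd ℚ ξ hg) hg0).trans ?_
  exact (Polynomial.natDegree_map_le).trans hd

lemma trdeg_tpi : Algebra.trdeg ℚ (IntermediateField.adjoin ℚ (insert (2 * Real.pi * Complex.I : ℂ)
    (Set.range (fun _ : Fin 1 => tpi)))) ≤ 1 := by
  have h0 : ((({tpi} : Finset ℂ).card : ℕ) : Cardinal) = 1 := by simp
  rw [← h0]
  refine trdeg_le_of_closure _ ?_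
  have h1 : IsAlgebraic (Algebra.adjoin ℚ (({tpi} : Finset ℂ) : Set ℂ)) tpi :=
    isAlgebraic_algebraMap (⟨tpi, Algebra.subset_adjoin (by simp)⟩ : Algebra.adjoin ℚ (({tpi} : Finset ℂ) : Set ℂ))
  rintro x (rfl | ⟨i, rfl⟩)
  · exact mem_cl_of_alg h1
  · exact mem_cl_of_alg h1

/-- windows around algebraic numbers -/
theorem winJ (hvc : T_VCJ) (hirr : T_IRR) : ∃ G0 : ℕ, 1 ≤ G0 ∧ ∀ G : ℕ, G0 ≤ G → ∀ q k m d δ A : ℕ, ∃ E : ℕ,
    ∀ (H : ℕ) (ξ : ℂ), ((H : ℝ) + 2) ^ E ≤ ‖ξ‖ → Al.Ht m A ξ → ∀ w : Fin q → ℂ, ∃ S : Finset ℕ, S.card ≤ q + 2 ∧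
    ∀ u : Fin k → ℕ, Function.Injective u → (∀ j, 1 ≤ u j ∧ u j ≤ H ∧ u j ∉ S) →
    ∀ z : Fin k → UpperHalfPlane, (∀ j, jj (z j) = ξ - ((G * u j : ℕ) : ℂ)) →
    ∀ L : IntermediateField ℚ ℂ, FiniteDimensional ℚ L → finrank ℚ L ≤ d →
    ∀ P : MvPolynomial (Option (Fin q) ⊕ Fin k × Fin 3) L, P.totalDegree ≤ δ →
    MvPolynomial.aeval (Sum.elim (wo w) fun v : Fin k × Fin 3 => jt (z v.1) v.2) P = 0 →
    ∀ y, MvPolynomial.aeval (Sum.elim (wo w) y) P = 0 := by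
  classical
  obtain ⟨T₀, A₀, hG⟩ := Pool.Agent.Y120.J.A.gfs_true
  obtain ⟨B, hB1, hB⟩ := inc0 hG.hsize t_fdc hanc
  obtain ⟨G0, hG0, hW⟩ := winT2s (nrh_of_gfs hG) hG.hsize
  refine ⟨G0, hG0, fun G hGG q k m d δ A => ?_⟩
  obtain ⟨E, hE⟩ := hW G hGG 1 (fun _ => tpi) q k m (d * m) (dd q k δ) A
  refine ⟨E + G + B + 2, fun H ξ hξ hHt w => ?_⟩
  have hH2 : (2 : ℝ) ≤ (H : ℝ) + 2 := by linarith [(Nat.cast_nonneg H : (0 : ℝ) ≤ H)]
  have hH1 : (1 : ℝ) ≤ (H : ℝ) + 2 := by linarith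
  have h2n : ∀ n : ℕ, (n : ℝ) ≤ ((H : ℝ) + 2) ^ n := fun n => by
    refine le_trans ?_ (pow_le_pow_left₀ (by norm_num) hH2 n)
    exact_mod_cast (Nat.lt_two_pow_self (n := n)).le
  have hbig : (G : ℝ) * (H + 2) + B ≤ ‖ξ‖ := by
    refine le_trans ?_ ((pow_le_pow_right₀ hH1 (by omega : G + 1 + B + 1 ≤ E + G + B + 2)).trans hξ)
    have h3 : (1 : ℝ) ≤ ((H : ℝ) + 2) ^ (G + 1) := one_le_pow₀ hH1
    have h4 : (1 : ℝ) ≤ ((H : ℝ) + 2) ^ B := one_le_pow₀ hH1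
    have h5 : (G : ℝ) * (H + 2) ≤ ((H : ℝ) + 2) ^ (G + 1) := by
      rw [pow_succ]
      exact mul_le_mul_of_nonneg_right (h2n G) (by linarith)
    have h6 : (B : ℝ) ≤ ((H : ℝ) + 2) ^ B := h2n B
    calc (G : ℝ) * (H + 2) + B ≤ ((H : ℝ) + 2) ^ (G + 1) + ((H : ℝ) + 2) ^ B := add_le_add h5 h6
      _ ≤ ((H : ℝ) + 2) ^ (G + 1) * ((H : ℝ) + 2) ^ B * 2 := by nlinarith
      _ ≤ ((H : ℝ) + 2) ^ (G + 1) * ((H : ℝ) + 2) ^ B * ((H : ℝ) + 2) :=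
          mul_le_mul_of_nonneg_left hH2 (by positivity)
      _ = _ := by rw [← pow_add, ← pow_succ]
  obtain ⟨S, hS, hwin⟩ := hE H ξ ((pow_le_pow_right₀ hH1 (by omega)).trans hξ) hHt w
  refine ⟨S, ?_, ?_⟩
  · have h1 : (S.card : Cardinal) ≤ ((q + 2 : ℕ) : Cardinal) := by
      refine hS.trans ?_
      have h2 : ((q + 2 : ℕ) : Cardinal) = 1 + q + 1 := by
        push_cast
        ring
      rw [h2]
      exact add_le_add (add_le_add trdeg_tpi le_rfl) le_rfl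
    exact_mod_cast h1
  intro u hu hub z hz L hLf hLd P hPd hP0 y
  by_contra hy
  obtain ⟨halg, hdeg⟩ := ht_alg hHt
  have := hLf
  obtain ⟨K, hKf, hKd, hLK, hξK⟩ := fld L (fun _ : Fin 1 => ξ) (fun _ => halg) (fun _ => hdeg)
  have hξK := hξK 0
  have hαB : ∀ j, (B : ℝ) < ‖ξ - ((G * u j : ℕ) : ℂ)‖ := by
    intro j
    have h5 := norm_sub_norm_le ξ ((G * u j : ℕ) : ℂ)
    rw [Complex.norm_natCast] at h5
    have hGR : (1 : ℝ) ≤ G := by exact_mod_cast hG0.trans hGG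
    have h6 : ((G * u j : ℕ) : ℝ) ≤ G * H := by
      push_cast
      exact mul_le_mul_of_nonneg_left (by exact_mod_cast (hub j).2.1) (by linarith)
    nlinarith
  obtain ⟨ℓ, hexp, hmem, Q, hQd, hQ0, hQ1⟩ := hB q k δ w (fun j => ξ - ((G * u j : ℕ) : ℂ)) hαB z hz L K hLK
    (fun j => sub_mem hξK (natCast_mem K _)) P hPd
  obtain ⟨y₁, hy₁, hQy⟩ := hQ1 ⟨y, hy⟩
  apply hQy
  -- the constants
  let e : Option (Fin q) → Fin 1 ⊕ Fin q := fun o => o.elim (Sum.inl 0) Sum.inr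
  have he : ∀ v : Fin k × Option (Fin 4) → ℂ, MvPolynomial.aeval (Sum.elim (Sum.elim (fun _ : Fin 1 => tpi) w) v)
      (MvPolynomial.rename (Sum.map e id) Q) = MvPolynomial.aeval (Sum.elim (wo w) v) Q := by
    intro v
    rw [MvPolynomial.aeval_rename]
    congr 2
    funext x
    rcases x with o | x
    · rcases o with _ | o <;> rfl
    · rfl
  rw [← he]
  refine hwin u hu hub ℓ hexp (YJ k) (hirr k) hmem (fun y hy j => hvc _ _ (hy j)) K hKf (by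
    refine hKd.trans ?_
    rw [pow_one]
    exact Nat.mul_le_mul_right _ hLd) _ ((MvPolynomial.totalDegree_rename_le _ _).trans hQd) ?_ y₁ hy₁
  rw [he]
  exact hQ0 hP0

end Pool.Agent.Y120.A
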