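import Pool.Agent.Y120.A.Cnt
import Pool.Agent.Y120.A.WinA
import Pool.Agent.Y120.K.All
import Pool.Agent.Y925.A.Vcj
import Pool.Agent.Y929.A.Irr

/-!
# Algebraic modular invariants: assembly
-/

set_option autoImplicit false

namespace Pool.Agent.Y120.A

theorem hvcj : T_VCJ := Pool.Agent.Y925.A.t_vcj (Pool.Agent.Y120.K.hu true) (Pool.Agent.Y120.K.hsb true)

theorem hirr : T_IRR := Pool.Agent.Y929.A.t_irr

end Pool.Agent.Y120.A
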