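import Pool.Agent.Y120.A.Inc
import Pool.Agent.Y120.A.Gf
import Pool.Agent.Y120.A.FD
import Pool.Agent.Y916.Af.Gs3
import Pool.Agent.Y916.Sl.Many

/-!
# Almost all tuples of algebraic invariants
-/

set_option autoImplicit false

open PowerSeries Module Pool.Agent.Y120.J Pool.Agent.Y120.K
open Pool.Agent.TH21.MS (jj)
open Pool.Agent.Y916.Af (ExcT tupT2s nrh_of_gfs small_tuples)
open Pool.Agent.Y916

namespace Pool.Agent.Y120.A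

lemma aint_alg {m : ℕ} {T : ℝ} {ξ : ℂ} (h : Sl.AInt m T ξ) : IsAlgebraic ℚ ξ ∧ (minpoly ℚ ξ).natDegree ≤ m := by
  obtain ⟨f, hf, hd, h0, -⟩ := h
  have hg0 : f.map (Int.castRingHom ℚ) ≠ 0 := (hf.map _).ne_zero
  have hg : Polynomial.aeval ξ (f.map (Int.castRingHom ℚ)) = 0 := by
    rw [Polynomial.aeval_def, Polynomial.eval₂_map]
    have h1 : (algebraMap ℚ ℂ).comp (Int.castRingHom ℚ) = algebraMap ℤ ℂ := RingHom.ext_int _ _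
    rw [h1]
    exact h0
  refine ⟨⟨_, hg0, hg⟩, ?_⟩
  refine (Polynomial.natDegree_le_of_dvd (minpoly.dvd ℚ ξ hg) hg0).trans ?_
  rw [hf.natDegree_map, hd]

lemma Wc_fin {q : ℕ} (w : Fin q → ℂ) : Module.Finite ℚ (Wc w) := Module.Finite.span_of_finite ℚ (Set.finite_range _)

lemma Wc_rank {q : ℕ} (w : Fin q → ℂ) (n : ℕ) : Module.Finite ℚ ↥(Wc w ^ n) ∧ finrank ℚ ↥(Wc w ^ n) ≤ (q + 2) ^ n := by
  haveI := Wc_fin w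
  obtain ⟨h1, h2⟩ := Pool.Agent.Y916.Om.finrank_pow_le (Wc w) n
  refine ⟨h1, h2.trans (Nat.pow_le_pow_left ?_ n)⟩
  refine (finrank_range_le_card _).trans ?_
  simp

theorem tupJ (hvc : T_VCJ) (hirr : T_IRR) (q k m d δ : ℕ) : ∃ c : ℝ, 0 < c ∧ ∃ C : ℝ, 0 ≤ C ∧ ∀ (w : Fin q → ℂ) (T : ℕ), 1 ≤ T →
    {α : Fin k → ℂ | (∀ i, Sl.AInt m T (α i)) ∧ ExcJ δ d w α}.Finite ∧
    ({α : Fin k → ℂ | (∀ i, Sl.AInt m T (α i)) ∧ ExcJ δ d w α}.ncard : ℝ) ≤ C * (T : ℝ) ^ (((k * Sl.Mm m : ℕ) : ℝ) - c) := by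
  classical
  obtain ⟨T₀, A₀, hG⟩ := Pool.Agent.Y120.J.A.gfs_true
  obtain ⟨B, hB1, hB⟩ := inc hG.hsize hvc hirr t_fdc hanc
  obtain ⟨c₁, hc₁, C₁, hC₁, h₁⟩ := tupT2s (nrh_of_gfs hG) hG.hsize k m (dd q k δ) (d * m ^ k) ((q + 2) ^ dd q k δ)
  obtain ⟨C₂, hC₂, h₂⟩ := small_tuples m k B hB1
  refine ⟨min c₁ 1, lt_min hc₁ one_pos, C₁ + C₂, by positivity, fun w T hT => ?_⟩
  obtain ⟨hw1, hw2⟩ := Wc_rank w (dd q k δ)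
  obtain ⟨hf, hn⟩ := h₁ (Wc w ^ dd q k δ) hw1 hw2 T hT
  have h₂ := h₂ T hT
  set S₂ := (Fintype.piFinset fun _ : Fin k => Sl.NF m T).filter fun α => ∃ i, ‖α i‖ ≤ B with hS₂
  set S₁ := {α : Fin k → ℂ | (∀ i, Sl.AInt m T (α i)) ∧ ExcT hJ (dd q k δ) (d * m ^ k) (Wc w ^ dd q k δ) α} with hS₁
  have hsub : {α : Fin k → ℂ | (∀ i, Sl.AInt m T (α i)) ∧ ExcJ δ d w α} ⊆ S₁ ∪ (S₂ : Set (Fin k → ℂ)) := by
    intro α hα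
    obtain ⟨ha, he⟩ := hα
    by_cases hs : ∃ i, ‖α i‖ ≤ B
    · right
      rw [hS₂, Finset.mem_coe, Finset.mem_filter, Fintype.mem_piFinset]
      exact ⟨fun i => Sl.mem_NF.2 (ha i), hs⟩
    · left
      push Not at hs
      exact ⟨ha, hB q k m d δ w α (fun i => (aint_alg (ha i)).1) (fun i => (aint_alg (ha i)).2) hs he⟩
  have hfin : (S₁ ∪ (S₂ : Set (Fin k → ℂ))).Finite := hf.union S₂.finite_toSet
  refine ⟨hfin.subset hsub, ?_⟩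
  have hT1 : (1 : ℝ) ≤ T := by exact_mod_cast hT
  have e1 : (T : ℝ) ^ (((k * Sl.Mm m : ℕ) : ℝ) - c₁) ≤ (T : ℝ) ^ (((k * Sl.Mm m : ℕ) : ℝ) - min c₁ 1) :=
    Real.rpow_le_rpow_of_exponent_le hT1 (by linarith [min_le_left c₁ 1])
  have e2 : (T : ℝ) ^ (((k * Sl.Mm m : ℕ) : ℝ) - 1) ≤ (T : ℝ) ^ (((k * Sl.Mm m : ℕ) : ℝ) - min c₁ 1) :=
    Real.rpow_le_rpow_of_exponent_le hT1 (by linarith [min_le_right c₁ 1])
  calc ({α : Fin k → ℂ | (∀ i, Sl.AInt m T (α i)) ∧ ExcJ δ d w α}.ncard : ℝ)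
      ≤ ((S₁ ∪ (S₂ : Set (Fin k → ℂ))).ncard : ℝ) := by exact_mod_cast Set.ncard_le_ncard hsub hfin
    _ ≤ (S₁.ncard : ℝ) + (S₂.card : ℝ) := by
        have h3 := Set.ncard_union_le S₁ (S₂ : Set (Fin k → ℂ))
        rw [Set.ncard_coe_finset] at h3
        exact_mod_cast h3
    _ ≤ C₁ * (T : ℝ) ^ (((k * Sl.Mm m : ℕ) : ℝ) - c₁) + C₂ * (T : ℝ) ^ (((k * Sl.Mm m : ℕ) : ℝ) - 1) := add_le_add hn h₂
    _ ≤ C₁ * (T : ℝ) ^ (((k * Sl.Mm m : ℕ) : ℝ) - min c₁ 1) + C₂ * (T : ℝ) ^ (((k * Sl.Mm m : ℕ) : ℝ) - min c₁ 1) :=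
        add_le_add (mul_le_mul_of_nonneg_left e1 hC₁) (mul_le_mul_of_nonneg_left e2 hC₂)
    _ = _ := by ring

/-- the exceptional tuples are few among all tuples of algebraic integers of degree at most `m` and house at most `T` -/
theorem tupP (hvc : T_VCJ) (hirr : T_IRR) (q k m d δ : ℕ) (hm : 1 ≤ m) : ∃ c : ℝ, 0 < c ∧ ∃ C : ℝ, 0 ≤ C ∧
    ∀ (w : Fin q → ℂ) (T : ℕ), 1 ≤ T → {ξ : ℂ | Sl.SInt m T ξ}.Finite ∧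
    ({α : Fin k → ℂ | (∀ i, Sl.SInt m T (α i)) ∧ ExcJ δ d w α}.ncard : ℝ) ≤
      C * (T : ℝ) ^ (-c) * ({ξ : ℂ | Sl.SInt m T ξ}.ncard : ℝ) ^ k := by
  obtain ⟨c, hc, C, hC, h⟩ := tupJ hvc hirr q k m d δ
  obtain ⟨c₁, hc₁, hmany⟩ := Sl.many m hm
  refine ⟨c, hc, C / c₁ ^ k, by positivity, fun w T hT => ⟨Sl.sint_fin m T, ?_⟩⟩
  obtain ⟨h1, h2⟩ := h w T hT
  have hsub : {α : Fin k → ℂ | (∀ i, Sl.SInt m T (α i)) ∧ ExcJ δ d w α} ⊆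
      {α : Fin k → ℂ | (∀ i, Sl.AInt m T (α i)) ∧ ExcJ δ d w α} := fun α hα => ⟨fun i => (hα.1 i).aint, hα.2⟩
  have h3 : ({α : Fin k → ℂ | (∀ i, Sl.SInt m T (α i)) ∧ ExcJ δ d w α}.ncard : ℝ) ≤
      ({α : Fin k → ℂ | (∀ i, Sl.AInt m T (α i)) ∧ ExcJ δ d w α}.ncard : ℝ) := by
    exact_mod_cast Set.ncard_le_ncard hsub h1
  exact (h3.trans h2).trans (Sl.prop_bound hc₁ hC hT (hmany T hT))

end Pool.Agent.Y120.A
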