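import Pool.Agent.Y916.Af.Stm
import Pool.Agent.Y120.K.Defs

/-!
# Algebraic modular invariants: statements
-/

set_option autoImplicit false

open PowerSeries Pool.Agent.Y113 Pool.Agent.Y120.GH Pool.Agent.Y120.J Pool.Agent.Y120.K
open Pool.Agent.TH21.MS (jj)

namespace Pool.Agent.Y120.A

/-- the quadric -/
def Q4 : Set (Fin 4 → ℂ) := {y | y 0 ≠ 0 ∧ y 0 * y 3 - y 2 * y 1 = 1}

/-- all functional relations between the four functions are consequences of `F G' - F' G = 1` -/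
def T_VCJ : Prop := ∀ (x : ℂ) (y : Fin 4 → ℂ), y ∈ Q4 → y ∈ Pool.Agent.Y916.Af.Vc hJ x

/-- the product of the quadrics, with `k` free coordinates -/
def YJ (k : ℕ) : Set (Fin k × Option (Fin 4) → ℂ) := {y | ∀ i, (fun j => y (i, some j)) ∈ Q4}

/-- it is irreducible -/
def T_IRR : Prop := ∀ k : ℕ, Pool.Agent.Y118.UL.Irr (YJ k)

/-- the points where `j` is large are equivalent to points with large imaginary part -/
def T_FDC : Prop := ∀ Y : ℝ, ∃ B : ℝ, ∀ z : UpperHalfPlane, B ≤ ‖jj z‖ →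
  ∃ (γ : Matrix.SpecialLinearGroup (Fin 2) ℤ) (w : UpperHalfPlane), Y ≤ w.im ∧ z = γ • w ∧ jj w = jj z

end Pool.Agent.Y120.A
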