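import Pool.Agent.Y120.A.Alg
import Pool.Agent.Y120.A.Defs
import Pool.Agent.Y120.J.All
import Pool.Agent.Y916.Af.Fin2
import Pool.Agent.Y916.Af.Ind

/-!
# Exceptional tuples of algebraic invariants are exceptional for the family
-/

set_option autoImplicit false

open PowerSeries Module Pool.Agent.Y120.J Pool.Agent.Y120.K
open Pool.Agent.TH21.MS (jj)
open Pool.Agent.Y916.Af (ptc ExcT coeff_sub deg_sub eval_sub)

namespace Pool.Agent.Y120.A

/-- the tuples of invariants with a relation -/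
def ExcJ (δ d : ℕ) {q k : ℕ} (w : Fin q → ℂ) (α : Fin k → ℂ) : Prop :=
  ∃ z : Fin k → UpperHalfPlane, (∀ i, jj (z i) = α i) ∧ ∃ L : IntermediateField ℚ ℂ, FiniteDimensional ℚ L ∧ finrank ℚ L ≤ d ∧
    ∃ P : MvPolynomial (Option (Fin q) ⊕ Fin k × Fin 3) L, P.totalDegree ≤ δ ∧
      MvPolynomial.aeval (Sum.elim (wo w) fun v : Fin k × Fin 3 => jt (z v.1) v.2) P = 0 ∧
      ∃ u, MvPolynomial.aeval (Sum.elim (wo w) u) P ≠ 0

/-- the constants -/
noncomputable def Wc {q : ℕ} (w : Fin q → ℂ) : Submodule ℚ ℂ :=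
  Submodule.span ℚ (Set.range fun o : Option (Option (Fin q)) => o.elim 1 (wo w))

lemma Wc_one {q : ℕ} (w : Fin q → ℂ) : (1 : ℂ) ∈ Wc w := Submodule.subset_span ⟨none, rfl⟩

lemma Wc_mem {q : ℕ} (w : Fin q → ℂ) (o : Option (Fin q)) : wo w o ∈ Wc w := Submodule.subset_span ⟨some o, rfl⟩

/-- the field generated by algebraic numbers -/
lemma fld (L : IntermediateField ℚ ℂ) [FiniteDimensional ℚ L] {k m : ℕ} (α : Fin k → ℂ) (h : ∀ i, IsAlgebraic ℚ (α i))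
    (hm : ∀ i, (minpoly ℚ (α i)).natDegree ≤ m) : ∃ K : IntermediateField ℚ ℂ, FiniteDimensional ℚ K ∧
      finrank ℚ K ≤ finrank ℚ L * m ^ k ∧ L ≤ K ∧ ∀ i, α i ∈ K := by
  induction k with
  | zero => exact ⟨L, inferInstance, by simp, le_rfl, fun i => i.elim0⟩
  | succ n ih =>
    obtain ⟨K, hK, hKd, hLK, hmem⟩ := ih (fun i => α i.castSucc) (fun i => h _) (fun i => hm _)
    have hint : IsIntegral ℚ (α (Fin.last n)) := (h _).isIntegral
    haveI : FiniteDimensional ℚ (IntermediateField.adjoin ℚ {α (Fin.last n)}) :=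
      IntermediateField.adjoin.finiteDimensional hint
    refine ⟨K ⊔ IntermediateField.adjoin ℚ {α (Fin.last n)}, inferInstance, ?_, hLK.trans le_sup_left, fun i => ?_⟩
    · refine (IntermediateField.finrank_sup_le _ _).trans ?_
      rw [IntermediateField.adjoin.finrank hint, pow_succ, ← mul_assoc]
      exact Nat.mul_le_mul hKd (hm _)
    · refine Fin.lastCases ?_ (fun j => ?_) i
      · exact (le_sup_right : _ ≤ K ⊔ _) (IntermediateField.mem_adjoin_simple_self ℚ _)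
      · exact (le_sup_left : K ≤ _) (hmem j)

lemma aeval_incl {σ : Type} {L K : IntermediateField ℚ ℂ} (h : L ≤ K) (P : MvPolynomial σ L) (x : σ → ℂ) :
    MvPolynomial.aeval x (MvPolynomial.map (IntermediateField.inclusion h : L →+* K) P) = MvPolynomial.aeval x P := by
  rw [MvPolynomial.aeval_def, MvPolynomial.aeval_def, MvPolynomial.eval₂_map]
  rfl

lemma deg_incl {σ : Type} {L K : IntermediateField ℚ ℂ} (h : L ≤ K) (P : MvPolynomial σ L) {δ : ℕ} (hP : P.totalDegree ≤ δ) :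
    (MvPolynomial.map (IntermediateField.inclusion h : L →+* K) P).totalDegree ≤ δ :=
  (Finset.sup_mono (MvPolynomial.support_map_subset _ _)).trans hP

/-- the degree -/
def dd (q k δ : ℕ) : ℕ := Fintype.card (Option (Fin q)) * (δ * 15) + Fintype.card (Fin k × Fin 3) * (δ * 15)

/-- the values satisfy the quadratic relation -/
lemma quad {x : ℂ} (hx : (fun i => Pool.Agent.Y916.Al.evc x (hJ i)) ∈ Pool.Agent.Y916.Af.Vc hJ x) :
    evc FF x * evc G1 x - evc F1 x * evc GG x = 1 := by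
  obtain ⟨-, -, h3⟩ := hode
  have h1 := hx (MvPolynomial.X 0 * MvPolynomial.X 3 - MvPolynomial.X 2 * MvPolynomial.X 1 - 1) (by
    rw [map_sub, map_sub, map_mul, map_mul, MvPolynomial.aeval_X, MvPolynomial.aeval_X, MvPolynomial.aeval_X,
      MvPolynomial.aeval_X, map_one]
    show FF * G1 - F1 * GG - 1 = 0
    linear_combination h3)
  rw [MvPolynomial.eval₂_sub, MvPolynomial.eval₂_sub, MvPolynomial.eval₂_mul, MvPolynomial.eval₂_mul, MvPolynomial.eval₂_X,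
    MvPolynomial.eval₂_X, MvPolynomial.eval₂_X, MvPolynomial.eval₂_X, MvPolynomial.eval₂_one] at h1
  exact sub_eq_zero.1 h1

/-- the transformation of a relation -/
theorem inc0 (hsize : ∃ C : ℝ, ∀ i m, |((coeff m (hJ i) : ℚ) : ℝ)| ≤ C ^ (m + 1)) (hfd : T_FDC) (ha : T_ANC) :
    ∃ B : ℕ, 1 ≤ B ∧ ∀ (q k δ : ℕ) (w : Fin q → ℂ) (α : Fin k → ℂ), (∀ i, (B : ℝ) < ‖α i‖) →
    ∀ z : Fin k → UpperHalfPlane, (∀ i, jj (z i) = α i) → ∀ L K : IntermediateField ℚ ℂ, L ≤ K → (∀ i, α i ∈ K) →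
    ∀ P : MvPolynomial (Option (Fin q) ⊕ Fin k × Fin 3) L, P.totalDegree ≤ δ →
    ∃ ℓ : Fin k → ℂ, (∀ i, Complex.exp (ℓ i) = α i) ∧ ptc hJ α ℓ ∈ YJ k ∧ ∃ Q : MvPolynomial (Vv q k) K,
      Q.totalDegree ≤ dd q k δ ∧
      (MvPolynomial.aeval (Sum.elim (wo w) fun v : Fin k × Fin 3 => jt (z v.1) v.2) P = 0 →
        MvPolynomial.aeval (Sum.elim (wo w) (ptc hJ α ℓ)) Q = 0) ∧
      ((∃ u, MvPolynomial.aeval (Sum.elim (wo w) u) P ≠ 0) → ∃ y ∈ YJ k, MvPolynomial.aeval (Sum.elim (wo w) y) Q ≠ 0) := by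
  classical
  obtain ⟨Y, hY1, hY⟩ := ha
  obtain ⟨B₀, hB₀⟩ := hfd Y
  obtain ⟨B₂, hB₂1, hB₂⟩ := Pool.Agent.Y916.Af.val_memC hsize
  obtain ⟨B, hB⟩ := exists_nat_ge (max B₀ B₂)
  refine ⟨B, ?_, ?_⟩
  · have h1 : B₂ ≤ B := by exact_mod_cast (le_max_right B₀ (B₂ : ℝ)).trans hB
    omega
  intro q k δ w α hαB z hz L K hLK hαK P hPd
  choose γ v hvY hzv hjv using fun i => hB₀ (z i) (by
    rw [hz i]
    exact ((le_max_left B₀ (B₂ : ℝ)).trans hB).trans (hαB i).le)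
  have hjα : ∀ i, jj (v i) = α i := fun i => (hjv i).trans (hz i)
  have hα0 : ∀ i, α i ≠ 0 := by
    intro i h0
    have h1 := hαB i
    rw [h0, norm_zero] at h1
    have : (0 : ℝ) ≤ B := Nat.cast_nonneg _
    linarith
  -- the values
  obtain ⟨F, hF⟩ : ∃ F : Fin k → ℂ, ∀ i, F i = evc FF (1 / α i) := ⟨_, fun _ => rfl⟩
  obtain ⟨G, hG⟩ : ∃ G : Fin k → ℂ, ∀ i, G i = evc GG (1 / α i) := ⟨_, fun _ => rfl⟩
  obtain ⟨F', hF'⟩ : ∃ F' : Fin k → ℂ, ∀ i, F' i = evc F1 (1 / α i) := ⟨_, fun _ => rfl⟩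
  have hA := fun i => hY (v i) (hvY i)
  simp only [hjα] at hA
  have hF0 : ∀ i, F i ≠ 0 := fun i => by
    rw [hF]
    exact (hA i).2.2.1
  set ℓ : Fin k → ℂ := fun i => G i / F i - tpi * (v i : ℂ) with hℓ
  have hexp : ∀ i, Complex.exp (ℓ i) = α i := by
    intro i
    have h1 := (hA i).2.2.2.2.2
    rw [← hF i, ← hG i] at h1
    have h2 : ℓ i = -(tpi * (v i : ℂ) - G i / F i) := by
      rw [hℓ]
      ring
    rw [h2, Complex.exp_neg, h1, one_div, inv_inv]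
  have hval : ∀ i j, ptc hJ α ℓ (i, some j) = Pool.Agent.Y916.Al.evc (1 / α i) (hJ j) := fun i j => rfl
  have hev : ∀ (x : ℂ) (f : ℚ⟦X⟧), Pool.Agent.Y916.Al.evc x f = evc f x := fun _ _ => rfl
  have hZ : ∀ i, Zw (fun o => ptc hJ α ℓ (i, o)) = ![tpi * F i ^ 2, F i * (G i - ℓ i * F i), tpi * (F i * F' i)] := by
    intro i
    funext j
    rw [hF, hG, hF']
    fin_cases j <;> rfl
  have hZ0 : ∀ i, Zw (fun o => ptc hJ α ℓ (i, o)) 0 ≠ 0 := by
    intro i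
    rw [hZ i]
    exact mul_ne_zero Pool.Agent.Y120.K.tpi_ne (pow_ne_zero 2 (hF0 i))
  have hpts := fun i => ptsC (Z := Zw (fun o => ptc hJ α ℓ (i, o))) (w := v i) (t := α i) (hZ0 i) (by
    rw [hZ i]
    show (v i : ℂ) * (tpi * F i ^ 2) = F i * (G i - ℓ i * F i)
    have h1 := hF0 i
    rw [hℓ]
    field_simp
    ring) (by
    rw [hZ i]
    show deriv jj (v i) = -α i * (tpi * F i ^ 2)
    rw [(hA i).2.2.2.1, ← hF i]
    ring) (by
    rw [hZ i]
    show deriv (deriv jj) (v i) = α i * ((tpi * F i ^ 2) ^ 2 - 2 * (tpi * F i ^ 2) * (tpi * (F i * F' i)))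
    rw [(hA i).2.2.2.2.1, ← hF i, ← hF' i]
    ring) (γ i) (hzv i)
  -- the point is on the quadrics
  have hmem : ptc hJ α ℓ ∈ YJ k := by
    intro i
    refine ⟨?_, ?_⟩
    · show ptc hJ α ℓ (i, some 0) ≠ 0
      rw [hval, hev]
      show evc FF (1 / α i) ≠ 0
      rw [← hF]
      exact hF0 i
    · exact quad (hB₂ (α i) (lt_of_le_of_lt ((le_max_right B₀ (B₂ : ℝ)).trans hB) (hαB i)))
  set α' : Fin k → K := fun i => ⟨α i, hαK i⟩ with hα'
  set P' := MvPolynomial.map (IntermediateField.inclusion hLK : L →+* K) P with hP'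
  have hPd' : P'.totalDegree ≤ δ := deg_incl hLK P hPd
  refine ⟨ℓ, hexp, hmem, Pt δ α' γ P', Pt_deg hPd', fun hP0 => ?_, fun hu => ?_⟩
  · rw [Pt_eval hPd' w _ (fun v : Fin k × Fin 3 => jt (z v.1) v.2) (fun b => (hpts b.1).1 b.2)
      fun b => (hpts b.1).2 b.2, aeval_incl, hP0]
  · -- a point where the relation fails
    obtain ⟨u₁, hu₁⟩ := hu
    set p : MvPolynomial (Fin k × Fin 3) ℂ := MvPolynomial.aeval (Sum.elim (fun i => (MvPolynomial.C (wo w i) :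
      MvPolynomial (Fin k × Fin 3) ℂ)) MvPolynomial.X) P with hp
    have hpe : ∀ u, MvPolynomial.eval u p = MvPolynomial.aeval (Sum.elim (wo w) u) P := by
      intro u
      rw [← eval_sub L (wo w) P u, ← hp]
      rfl
    have hp0 : p ≠ 0 := by
      intro h0
      apply hu₁
      rw [← hpe, h0, map_zero]
    have hex : ∃ u : Fin k × Fin 3 → ℂ, (∀ j, u (j, 1) ≠ 0 ∧ ((γ j 0 0 : ℤ) : ℂ) - (γ j 1 0 : ℤ) * u (j, 0) ≠ 0) ∧
        MvPolynomial.eval u p ≠ 0 := by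
      by_contra hcon
      push Not at hcon
      refine hp0 (dense_zero (a := fun j => γ j 0 0) (c := fun j => γ j 1 0) (fun j => ?_) fun u hu => hcon u hu)
      by_contra hcon2
      push Not at hcon2
      have h1 := (γ j).det_coe
      rw [Matrix.det_fin_two, hcon2.1, hcon2.2] at h1
      simp at h1
    obtain ⟨u, hu, hup⟩ := hex
    have hdet : ∀ j, (γ j 0 0 : ℤ) * γ j 1 1 - γ j 0 1 * γ j 1 0 = 1 := by
      intro j
      have h1 := (γ j).det_coe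
      rw [Matrix.det_fin_two] at h1
      exact h1
    choose Z hZ1 hZ2 hZ3 using fun j => exists_ZC (u := fun i => u (j, i)) (hdet j) (hα0 j) (hu j).1 (hu j).2
    choose V hV1 hV2 hV3 using fun j => exists_Zw (hZ1 j)
    refine ⟨fun a => V a.1 a.2, fun i => ⟨hV1 i, hV2 i⟩, ?_⟩
    rw [Ne, Pt_eval hPd' w _ u (fun b => by
      rw [hV3 b.1]
      exact hZ2 b.1 b.2) (fun b => by
      rw [hV3 b.1]
      exact hZ3 b.1 b.2), aeval_incl, ← hpe]
    exact hup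

/-- the inclusion -/
theorem inc (hsize : ∃ C : ℝ, ∀ i m, |((coeff m (hJ i) : ℚ) : ℝ)| ≤ C ^ (m + 1)) (hvc : T_VCJ) (hirr : T_IRR) (hfd : T_FDC)
    (ha : T_ANC) : ∃ B : ℕ, 1 ≤ B ∧ ∀ (q k m d δ : ℕ) (w : Fin q → ℂ)
    (α : Fin k → ℂ), (∀ i, IsAlgebraic ℚ (α i)) → (∀ i, (minpoly ℚ (α i)).natDegree ≤ m) → (∀ i, (B : ℝ) < ‖α i‖) →
    ExcJ δ d w α → ExcT hJ (dd q k δ) (d * m ^ k) (Wc w ^ dd q k δ) α := by
  obtain ⟨B, hB1, hB⟩ := inc0 hsize hfd ha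
  refine ⟨B, hB1, ?_⟩
  intro q k m d δ w α halg hdeg hαB hexc
  obtain ⟨z, hz, L, hLf, hLd, P, hPd, hP0, hu⟩ := hexc
  have := hLf
  obtain ⟨K, hKf, hKd, hLK, hαK⟩ := fld L α halg hdeg
  obtain ⟨ℓ, hexp, hmem, Q, hQd, hQ0, hQ1⟩ := hB q k δ w α hαB z hz L K hLK hαK P hPd
  refine ⟨ℓ, hexp, YJ k, hirr k, hmem, fun y hy j => hvc _ _ (hy j), K, hKf, hKd.trans (Nat.mul_le_mul_right _ hLd), ?_⟩
  refine ⟨MvPolynomial.aeval (Sum.elim (fun i => (MvPolynomial.C (wo w i) : MvPolynomial (Fin k × Option (Fin 4)) ℂ))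
    MvPolynomial.X) Q, deg_sub K _ _ hQd, fun s => coeff_sub K (wo w) (Wc w) (Wc_one w) (Wc_mem w) _ hQd s, ?_, ?_⟩
  · rw [eval_sub]
    exact hQ0 hP0
  · obtain ⟨y, hy, hyQ⟩ := hQ1 hu
    exact ⟨y, hy, by rwa [eval_sub]⟩

end Pool.Agent.Y120.A
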