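import Pool.Agent.Y120.K.Pre

/-!
# The numbers at points with complex invariant
-/

set_option autoImplicit false

open Pool.Agent.Y120.J Pool.Agent.Y120.K
open Pool.Agent.TH21.MS (jj)

namespace Pool.Agent.Y120.A

/-- the numerators -/
noncomputable def nv (t : ℂ) (a b c d : ℤ) (Z : Fin 3 → ℂ) : Fin 3 → ℂ :=
  ![a * Z 1 + b * Z 0, -t * (c * Z 1 + d * Z 0) ^ 2,
      t * (c * Z 1 + d * Z 0) ^ 3 * ((c * Z 1 + d * Z 0) * (Z 0 - 2 * Z 2) - 2 * c * Z 0)]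

/-- the denominators -/
noncomputable def mv (c d : ℤ) (Z : Fin 3 → ℂ) : Fin 3 → ℂ := ![c * Z 1 + d * Z 0, Z 0, Z 0 ^ 3]

/-- the values as fractions -/
theorem ptsC {Z : Fin 3 → ℂ} {w : UpperHalfPlane} {t : ℂ} (hZ0 : Z 0 ≠ 0) (hw : (w : ℂ) * Z 0 = Z 1)
    (h1 : deriv jj w = -t * Z 0) (h2 : deriv (deriv jj) w = t * (Z 0 ^ 2 - 2 * Z 0 * Z 2))
    (γ : Matrix.SpecialLinearGroup (Fin 2) ℤ) {z : UpperHalfPlane} (hz : z = γ • w) :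
    (∀ j, mv (γ 1 0) (γ 1 1) Z j ≠ 0) ∧
    ∀ j, jt z j = nv t (γ 0 0) (γ 0 1) (γ 1 0) (γ 1 1) Z j / mv (γ 1 0) (γ 1 1) Z j := by
  obtain ⟨-, hd1, hd2, hv, hne⟩ := Pool.Agent.Y508.J.t_mob γ w
  rw [← hz] at hd1 hd2 hv
  rw [h1] at hd1 hd2
  rw [h2] at hd2
  have hu : (γ 1 0 : ℂ) * Z 1 + γ 1 1 * Z 0 = ((γ 1 0 : ℂ) * w + γ 1 1) * Z 0 := by
    rw [← hw]
    ring
  have hn : (γ 0 0 : ℂ) * Z 1 + γ 0 1 * Z 0 = ((γ 0 0 : ℂ) * w + γ 0 1) * Z 0 := by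
    rw [← hw]
    ring
  have hu0 : (γ 1 0 : ℂ) * Z 1 + γ 1 1 * Z 0 ≠ 0 := by
    rw [hu]
    exact mul_ne_zero hne hZ0
  set U : ℂ := (γ 1 0 : ℂ) * w + γ 1 1 with hU
  refine ⟨fun j => ?_, fun j => ?_⟩
  · fin_cases j
    · exact hu0
    · exact hZ0
    · exact pow_ne_zero 3 hZ0
  · fin_cases j
    · show (z : ℂ) = ((γ 0 0 : ℂ) * Z 1 + γ 0 1 * Z 0) / ((γ 1 0 : ℂ) * Z 1 + γ 1 1 * Z 0)
      rw [hv, hu, hn, mul_div_mul_right _ _ hZ0]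
    · show deriv jj z = (-t * ((γ 1 0 : ℂ) * Z 1 + γ 1 1 * Z 0) ^ 2) / Z 0
      rw [hd1, hu, eq_div_iff hZ0]
      ring
    · show deriv (deriv jj) z = (t * ((γ 1 0 : ℂ) * Z 1 + γ 1 1 * Z 0) ^ 3 *
        (((γ 1 0 : ℂ) * Z 1 + γ 1 1 * Z 0) * (Z 0 - 2 * Z 2) - 2 * (γ 1 0 : ℂ) * Z 0)) / Z 0 ^ 3
      rw [hd2, hu, eq_div_iff (pow_ne_zero 3 hZ0)]
      ring

lemma exists_ZC {a b c d : ℤ} {n : ℂ} (hdet : a * d - b * c = 1) (hn : n ≠ 0) {u : Fin 3 → ℂ} (h1 : u 1 ≠ 0)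
    (h0 : (a : ℂ) - c * u 0 ≠ 0) : ∃ Z : Fin 3 → ℂ, Z 0 ≠ 0 ∧ (∀ i, mv c d Z i ≠ 0) ∧
      ∀ i, u i = nv n a b c d Z i / mv c d Z i := by
  have hnC : (n : ℂ) ≠ 0 := hn
  have hdC : (a : ℂ) * d - b * c = 1 := by exact_mod_cast hdet
  set m : ℂ := (a : ℂ) - c * u 0 with hm
  obtain ⟨Z0, hZ0⟩ : ∃ Z0 : ℂ, Z0 = -(u 1 * m ^ 2) / n := ⟨_, rfl⟩
  have hZ00 : Z0 ≠ 0 := by
    rw [hZ0]
    exact div_ne_zero (neg_ne_zero.2 (mul_ne_zero h1 (pow_ne_zero _ h0))) hnC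
  obtain ⟨Z1, hZ1⟩ : ∃ Z1 : ℂ, Z1 = (d * u 0 - b) / m * Z0 := ⟨_, rfl⟩
  have hU : (c : ℂ) * Z1 + d * Z0 = Z0 / m := by
    rw [hZ1]
    field_simp
    rw [hm]
    linear_combination hdC
  have hU0 : Z0 / m ≠ 0 := div_ne_zero hZ00 h0
  obtain ⟨Z2, hZ2⟩ : ∃ Z2 : ℂ, Z2 = (Z0 - (u 2 * Z0 ^ 3 / (n * (Z0 / m) ^ 3) + 2 * c * Z0) / (Z0 / m)) / 2 := ⟨_, rfl⟩
  refine ⟨![Z0, Z1, Z2], hZ00, fun i => ?_, fun i => ?_⟩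
  · fin_cases i
    · show (c : ℂ) * Z1 + d * Z0 ≠ 0
      rw [hU]
      exact hU0
    · exact hZ00
    · exact pow_ne_zero 3 hZ00
  · fin_cases i
    · show u 0 = ((a : ℂ) * Z1 + b * Z0) / ((c : ℂ) * Z1 + d * Z0)
      rw [hU, eq_div_iff hU0, hZ1]
      field_simp
      rw [hm]
      linear_combination (-(u 0)) * hdC
    · show u 1 = (-n * ((c : ℂ) * Z1 + d * Z0) ^ 2) / Z0
      rw [hU, eq_div_iff hZ00]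
      have h2 : u 1 * m ^ 2 = -n * Z0 := by
        rw [hZ0]
        field_simp
      field_simp
      linear_combination h2
    · show u 2 = (n * ((c : ℂ) * Z1 + d * Z0) ^ 3 * (((c : ℂ) * Z1 + d * Z0) * (Z0 - 2 * Z2) - 2 * c * Z0)) / Z0 ^ 3
      rw [hU, eq_div_iff (pow_ne_zero 3 hZ00)]
      have h2 : (Z0 / m) * (Z0 - 2 * Z2) - 2 * c * Z0 = u 2 * Z0 ^ 3 / (n * (Z0 / m) ^ 3) := by
        rw [hZ2]
        field_simp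
        ring
      rw [h2]
      field_simp


end Pool.Agent.Y120.A
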